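import Pool.Agent.H.MP_55c352_al.D

set_option autoImplicit false

namespace Pool.Agent.Results.MP_241ca8_al.No

open scoped LinearAlgebra.Projectivization Matrix
open Filter Topology Pool.Agent.H.MP_55c352_al

variable {n : ℕ} {W : Type} [Group W]

/-- `E_x`: accumulation points of the orbit of `x`. -/
def E (ρ : W →* ((Fin n → ℝ) ≃ₗ[ℝ] (Fin n → ℝ))) (x : ℙ ℝ (Fin n → ℝ)) :
    Set (ℙ ℝ (Fin n → ℝ)) :=
  {y | AccPt y (𝓟 (Set.range fun w => act (ρ w) x))}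

/-- `E_Φ`: accumulation points of the set of directions of roots `w(α_s)`. -/
def EΦ (ρ : W →* ((Fin n → ℝ) ≃ₗ[ℝ] (Fin n → ℝ))) : Set (ℙ ℝ (Fin n → ℝ)) :=
  {y | AccPt y (𝓟 {z | ∃ (w : W) (s : Fin n) (h : ρ w (Pi.single s 1) ≠ 0),
    z = Projectivization.mk ℝ (ρ w (Pi.single s 1)) h})}

theorem result : ∃ (M : CoxeterMatrix (Fin 3)) (B : Matrix (Fin 3) (Fin 3) ℝ)
    (ρ : M.Group →* ((Fin 3 → ℝ) ≃ₗ[ℝ] (Fin 3 → ℝ))),
    M 0 1 = 0 ∧ M 1 2 = 3 ∧ M 0 2 = 2 ∧ IsLor M B ρ ∧ ¬ IsClosed {x | E ρ x = EΦ ρ} := by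
  refine ⟨M0, B0, ρ, rfl, rfl, rfl, isLor, fun h => not_closed (fun s => by simp) ?_⟩
  simpa [E, EΦ, act_mk] using h

end Pool.Agent.Results.MP_241ca8_al.No
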